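import Pool.Agent.W317.DR.Stm

/-! The extension of a copy of the gadget by new vertices and the flex phase (DR-EXT). -/

set_option autoImplicit false

namespace Pool.Agent.W196.DR

open Pool.Agent.W317.DR Finset

/-- pairwise disjoint subsets of given size -/
lemma disj_fam (w : ℕ) : ∀ (m : ℕ) (R : Finset ℕ), m * w ≤ R.card →
    ∃ T : ℕ → Finset ℕ, (∀ i < m, (T i).card = w ∧ T i ⊆ R) ∧
      ∀ i < m, ∀ j < m, i ≠ j → Disjoint (T i) (T j) := by
  intro m
  induction m with
  | zero => intro R _; exact ⟨fun _ => ∅, by simp, by simp⟩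
  | succ m ih =>
    intro R hR
    have hw : w ≤ R.card := by
      have : w ≤ (m + 1) * w := Nat.le_mul_of_pos_left w (Nat.succ_pos m)
      omega
    obtain ⟨S, hSR, hSc⟩ := Finset.exists_subset_card_eq hw
    have h2 : m * w ≤ (R \ S).card := by
      rw [Finset.card_sdiff_of_subset hSR, hSc]
      have : (m + 1) * w = m * w + w := by ring
      omega
    obtain ⟨T, hT1, hT2⟩ := ih (R \ S) h2
    refine ⟨fun i => if i = m then S else T i, ?_, ?_⟩
    · intro i hi
      by_cases him : i = m
      · simp only [him, if_true]; exact ⟨hSc, hSR⟩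
      · simp only [him, if_false]
        have := hT1 i (by omega)
        exact ⟨this.1, this.2.trans Finset.sdiff_subset⟩
    · intro i hi j hj hij
      by_cases him : i = m
      · have hjm : j ≠ m := fun h => hij (him.trans h.symm)
        simp only [him, if_true, hjm, if_false]
        have := (hT1 j (by omega)).2
        exact (Finset.disjoint_of_subset_left this Finset.sdiff_disjoint).symm
      · by_cases hjm : j = m
        · simp only [him, if_false, hjm, if_true]
          have := (hT1 i (by omega)).2
          exact Finset.disjoint_of_subset_left this Finset.sdiff_disjoint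
        · simp only [him, hjm, if_false]
          exact hT2 i (by omega) j (by omega) hij

theorem ext : S_EXT := by
  intro I _ _ p c V
  classical
  have hinf : ((c.F ∪ c.U ∪ {c.z} ∪ V : Finset ℕ) : Set ℕ)ᶜ.Infinite :=
    (Finset.finite_toSet _).infinite_compl
  obtain ⟨W, hW, hWc⟩ := hinf.exists_subset_card_eq (p.r * p.w + p.w0)
  have hW' : ∀ v ∈ W, v ∉ c.F ∧ v ∉ c.U ∧ v ≠ c.z ∧ v ∉ V := by
    intro v hv
    have := hW hv
    simp only [Set.mem_compl_iff, Finset.mem_coe, Finset.mem_union, Finset.mem_singleton] at this
    tauto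
  obtain ⟨T, hT1, hT2⟩ := disj_fam p.w p.r W (by omega)
  refine ⟨{ toRC := c, W := W, S := fun s => T s, cW := hWc, cS := fun s => (hT1 s s.2).1,
            SW := fun s => (hT1 s s.2).2,
            SS := fun s t hst => hT2 s s.2 t t.2 (fun h => hst (Fin.ext h)),
            WF := ?_, WX := ?_, zW := ?_ }, rfl, ?_⟩
  · rw [Finset.disjoint_left]; intro v hv; exact (hW' v hv).1
  · intro i
    rw [Finset.disjoint_left]; intro v hv hx
    apply (hW' v hv).2.1
    unfold RC.U
    rw [Finset.mem_biUnion]
    exact ⟨i, Finset.mem_univ _, hx⟩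
  · intro hz; exact (hW' _ hz).2.2.1 rfl
  · rw [Finset.disjoint_left]; intro v hv; exact (hW' v hv).2.2.2

lemma edges_sub {I : Type} [Fintype I] [DecidableEq I] {p : Par I} (c : RC p) {e : Finset ℕ}
    (he : e ∈ c.edges) : e ⊆ insert c.z (c.F ∪ c.U) := by
  have hXU : ∀ i, c.X i ⊆ c.U := fun i => by
    unfold RC.U; exact Finset.subset_biUnion_of_mem c.X (Finset.mem_univ i)
  unfold RC.edges at he
  rw [Finset.mem_insert, Finset.mem_insert] at he
  rcases he with rfl | rfl | he
  · unfold RC.ga RC.PP
    intro v hv
    rw [Finset.mem_insert, Finset.mem_biUnion] at hv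
    rw [Finset.mem_insert, Finset.mem_union]
    rcases hv with h | ⟨i, _, h⟩
    · exact Or.inl h
    · exact Or.inr (Or.inr (hXU i (Finset.mem_sdiff.mp h).1))
  · unfold RC.gb RC.QQ
    intro v hv
    rw [Finset.mem_insert, Finset.mem_biUnion] at hv
    rw [Finset.mem_insert, Finset.mem_union]
    rcases hv with h | ⟨i, _, h⟩
    · exact Or.inl h
    · exact Or.inr (Or.inr (hXU i (c.TX i h)))
  · unfold RC.coreS at he
    rw [Finset.mem_image] at he
    obtain ⟨j, _, rfl⟩ := he
    unfold RC.core
    intro v hv
    rw [Finset.mem_union, Finset.mem_union, Finset.mem_biUnion] at hv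
    rw [Finset.mem_insert, Finset.mem_union]
    rcases hv with h | h | ⟨i, _, h⟩
    · exact Or.inr (Or.inl h)
    · exact Or.inr (Or.inr (hXU j (c.TX j h)))
    · exact Or.inr (Or.inr (hXU i h))

theorem flex (hC : S_CARD) : S_FLEX := by
  intro I _ _ p N0 c
  classical
  refine ⟨?_, ?_, ?_, ?_⟩
  · -- part 1
    intro A B
    obtain ⟨h, hc, hd⟩ := ext I p c ((A ∪ B ∪ N0).biUnion id)
    refine ⟨h, hc, by simp, ?_, ?_⟩
    · intro g hg
      refine Finset.disjoint_of_subset_right ?_ hd
      intro v hv
      rw [Finset.mem_biUnion]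
      exact ⟨g, Finset.mem_union_right _ hg, hv⟩
    · rw [Nat.mul_zero, Nat.le_zero, Finset.card_eq_zero, Finset.filter_eq_empty_iff]
      intro e he h2
      have hdis : Disjoint e h.W := by
        refine Disjoint.symm (Finset.disjoint_of_subset_right ?_ hd)
        intro v hv
        rw [Finset.mem_biUnion]
        exact ⟨e, Finset.mem_union_left _ he, hv⟩
      rw [Finset.disjoint_iff_inter_eq_empty] at hdis
      rw [hdis] at h2
      simp at h2
  · -- part 2
    intro u A B x hu ⟨h, hc, hfl, hN0, hcount⟩
    -- the remaining part of W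
    set Z := (univ.filter (fun s : Fin p.r => s.val < u)).biUnion h.S with hZ
    set R := h.W \ Z with hR
    have hZW : Z ⊆ h.W := by
      rw [hZ]; intro v hv
      rw [Finset.mem_biUnion] at hv
      obtain ⟨s, _, hs⟩ := hv
      exact h.SW s hs
    have hcu : (univ.filter (fun s : Fin p.r => s.val < u)).card = u := by
      have : (univ.filter (fun s : Fin p.r => s.val < u)) =
          univ.filter (fun s : Fin p.r => s < ⟨u, hu⟩) := by
        apply Finset.filter_congr; intro s _; exact (Fin.lt_def (a := s) (b := ⟨u, hu⟩)).symm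
      rw [this]
      have h3 : univ.filter (fun s : Fin p.r => s < ⟨u, hu⟩) = Finset.Iio (⟨u, hu⟩ : Fin p.r) := by
        ext s; simp
      rw [h3, Fin.card_Iio]
    have hZc : Z.card = u * p.w := by
      rw [hZ, Finset.card_biUnion (fun s _ t _ hst => h.SS s t hst),
        Finset.sum_congr rfl (fun s _ => h.cS s), Finset.sum_const, hcu, smul_eq_mul]
    have hRc : R.card = (p.r - u) * p.w + p.w0 := by
      rw [hR, Finset.card_sdiff_of_subset hZW, h.cW, hZc, Nat.sub_mul]
      have : u * p.w ≤ p.r * p.w := Nat.mul_le_mul_right _ hu.le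
      omega
    have hRW : R ⊆ h.W := Finset.sdiff_subset
    have hw1 : 1 ≤ p.w := by have := p.w_gt; omega
    have hru : p.w ≤ (p.r - u) * p.w := Nat.le_mul_of_pos_left _ (by omega)
    obtain ⟨K, hKR, hKc⟩ := Finset.exists_subset_card_eq (s := R) (n := p.w - 1) (by omega)
    have hRK : (R \ K).card = R.card - (p.w - 1) := by
      rw [Finset.card_sdiff_of_subset hKR, hKc]
    set ed : ℕ → Finset ℕ := fun v => insert h.z (h.F ∪ (h.W \ insert v K)) with hed
    have hKW : K ⊆ h.W := hKR.trans hRW
    have hinj : Set.InjOn ed ((R \ K : Finset ℕ) : Set ℕ) := by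
      intro v hv v' hv' he
      rw [Finset.mem_coe, Finset.mem_sdiff] at hv hv'
      by_contra hne
      have h1 : v' ∈ ed v := by
        simp only [hed, Finset.mem_insert, Finset.mem_union, Finset.mem_sdiff]
        right; right
        exact ⟨hRW hv'.1, fun h => by rcases h with h | h; exacts [hne h.symm, hv'.2 h]⟩
      rw [he] at h1
      simp only [hed, Finset.mem_insert, Finset.mem_union, Finset.mem_sdiff] at h1
      rcases h1 with h1 | h1 | h1
      · exact h.zW (h1 ▸ hRW hv'.1)
      · exact (Finset.disjoint_left.mp h.WF (hRW hv'.1)) h1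
      · exact h1.2 (Or.inl trivial)
    set Bad := (insert x A ∪ B).filter (fun e => 2 ≤ (e ∩ h.W).card) with hBad
    have hBadc : Bad.card ≤ 2 * u + 1 := by
      have : Bad ⊆ insert x ((A ∪ B).filter (fun e => 2 ≤ (e ∩ h.W).card)) := by
        intro e he
        rw [hBad, Finset.mem_filter, Finset.mem_union, Finset.mem_insert] at he
        rw [Finset.mem_insert, Finset.mem_filter, Finset.mem_union]
        tauto
      have h1 := Finset.card_le_card this
      have h2 := Finset.card_insert_le x ((A ∪ B).filter (fun e => 2 ≤ (e ∩ h.W).card))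
      omega
    have hex : ∃ v ∈ R \ K, ed v ∉ Bad := by
      by_contra hcon
      push Not at hcon
      have h1 : (R \ K).image ed ⊆ Bad := by
        intro e he
        rw [Finset.mem_image] at he
        obtain ⟨v, hv, rfl⟩ := he
        exact hcon v hv
      have h2 := Finset.card_le_card h1
      rw [Finset.card_image_of_injOn hinj, hRK] at h2
      have := p.w0_ge
      omega
    obtain ⟨v, hv, hvB⟩ := hex
    rw [Finset.mem_sdiff] at hv
    set S' := insert v K with hS'
    have hS'R : S' ⊆ R := by
      rw [hS', Finset.insert_subset_iff]; exact ⟨hv.1, hKR⟩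
    have hS'c : S'.card = p.w := by
      rw [hS', Finset.card_insert_of_notMem hv.2, hKc]; omega
    have hedW : ed v ∩ h.W = h.W \ S' := by
      ext t
      simp only [hed, Finset.mem_inter, Finset.mem_insert, Finset.mem_union, Finset.mem_sdiff,
        hS']
      constructor
      · rintro ⟨h1 | h1 | h1, h2⟩
        · exact absurd (h1 ▸ h2) h.zW
        · exact absurd h1 (Finset.disjoint_left.mp h.WF h2)
        · exact h1
      · rintro ⟨h1, h2⟩
        exact ⟨Or.inr (Or.inr ⟨h1, h2⟩), h1⟩
    have hed2 : 2 ≤ (ed v ∩ h.W).card := by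
      rw [hedW, Finset.card_sdiff_of_subset (hS'R.trans hRW), h.cW, hS'c]
      have h1 : p.w ≤ p.r * p.w := Nat.le_mul_of_pos_left _ (by have := p.r_ge; omega)
      have := p.w0_ge
      omega
    have hnot : ed v ∉ insert x A ∪ B := by
      intro hmem
      exact hvB (Finset.mem_filter.mpr ⟨hmem, hed2⟩)
    have hR2 : (p.r - (u + 1)) * p.w ≤ (R \ S').card := by
      rw [Finset.card_sdiff_of_subset hS'R, hS'c, hRc]
      have : (p.r - u) * p.w = (p.r - (u + 1)) * p.w + p.w := by
        have : p.r - u = (p.r - (u + 1)) + 1 := by omega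
        rw [this]; ring
      omega
    obtain ⟨T, hT1, hT2⟩ := disj_fam p.w _ _ hR2
    set S2 : Fin p.r → Finset ℕ := fun s =>
      if s.val < u then h.S s else if s.val = u then S' else T (s.val - (u + 1)) with hS2
    have hTR : ∀ s : Fin p.r, u < s.val → T (s.val - (u + 1)) ⊆ R \ S' := fun s hs =>
      (hT1 _ (by have := s.2; omega)).2
    have hRS : ∀ s : Fin p.r, s.val < u → Disjoint (h.S s) R := by
      intro s hs
      rw [Finset.disjoint_left]
      intro t ht htR
      rw [hR, Finset.mem_sdiff] at htR
      apply htR.2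
      rw [hZ, Finset.mem_biUnion]
      exact ⟨s, Finset.mem_filter.mpr ⟨Finset.mem_univ _, hs⟩, ht⟩
    have hdis : ∀ s t : Fin p.r, s.val < t.val → Disjoint (S2 s) (S2 t) := by
      intro s t hst
      by_cases hsu : s.val < u
      · by_cases htu : t.val < u
        · simp only [hS2, hsu, htu, if_true]
          exact h.SS s t (fun h => by rw [h] at hst; omega)
        · by_cases htu2 : t.val = u
          · simp only [hS2, hsu, htu, htu2, if_true, if_false, lt_irrefl]
            exact Finset.disjoint_of_subset_right hS'R (hRS s hsu)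
          · simp only [hS2, hsu, htu, htu2, if_true, if_false]
            exact Finset.disjoint_of_subset_right
              ((hTR t (by omega)).trans Finset.sdiff_subset) (hRS s hsu)
      · by_cases hsu2 : s.val = u
        · have h1 : ¬ t.val < u := by omega
          have h2 : ¬ t.val = u := by omega
          simp only [hS2, hsu2, h1, h2, if_true, if_false, lt_irrefl]
          exact (Finset.disjoint_of_subset_left (hTR t (by omega)) Finset.sdiff_disjoint).symm
        · have h1 : ¬ t.val < u := by omega
          have h2 : ¬ t.val = u := by omega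
          simp only [hS2, hsu, hsu2, h1, h2, if_false]
          exact hT2 _ (by have := s.2; omega) _ (by have := t.2; omega) (by omega)
    let h' : HC p :=
      { toRC := h.toRC
        W := h.W
        S := S2
        cW := h.cW
        cS := by
          intro s
          by_cases hsu : s.val < u
          · simp only [hS2, hsu, if_true]; exact h.cS s
          · by_cases hsu2 : s.val = u
            · simp only [hS2, hsu2, if_true, if_false, lt_irrefl]; exact hS'c
            · simp only [hS2, hsu, hsu2, if_false]
              exact (hT1 _ (by have := s.2; omega)).1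
        SW := by
          intro s
          by_cases hsu : s.val < u
          · simp only [hS2, hsu, if_true]; exact h.SW s
          · by_cases hsu2 : s.val = u
            · simp only [hS2, hsu2, if_true, if_false, lt_irrefl]; exact hS'R.trans hRW
            · simp only [hS2, hsu, hsu2, if_false]
              exact (hTR s (by omega)).trans (Finset.sdiff_subset.trans hRW)
        SS := by
          intro s t hst
          rcases lt_trichotomy s.val t.val with h1 | h1 | h1
          · exact hdis s t h1
          · exact absurd (Fin.ext h1) hst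
          · exact (hdis t s h1).symm
        WF := h.WF
        WX := h.WX
        zW := h.zW }
    have hflu : h'.flex ⟨u, hu⟩ = ed v := by
      have : S2 ⟨u, hu⟩ = S' := by simp [hS2]
      show insert h.z (h.F ∪ (h.W \ S2 ⟨u, hu⟩)) = _
      rw [this]
    have hfll : ∀ s : Fin p.r, s.val < u → h'.flex s = h.flex s := by
      intro s hs
      have : S2 s = h.S s := by simp only [hS2, hs, if_true]
      show insert h.z (h.F ∪ (h.W \ S2 s)) = insert h.z (h.F ∪ (h.W \ h.S s))
      rw [this]
    refine ⟨ed v, ?_, ?_, ?_, h', hc, ?_, hN0, ?_⟩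
    · have h1 := (hC I p).2.2.2.2.2.1 h' (ed v) (by
        unfold HC.hedges
        rw [Finset.mem_union]
        right
        rw [← hflu]
        exact Finset.mem_image_of_mem _ (Finset.mem_univ _))
      exact h1
    · intro hm; exact hnot (Finset.mem_union_left _ hm)
    · intro hm; exact hnot (Finset.mem_union_right _ hm)
    · intro s hs
      rw [Finset.mem_insert]
      by_cases hsu : s.val < u
      · right; rw [hfll s hsu]; exact hfl s hsu
      · left
        have : s = ⟨u, hu⟩ := Fin.ext (by simp only; omega)
        rw [this, hflu]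
    · have hsub : ((insert x A ∪ insert (ed v) B).filter (fun e => 2 ≤ (e ∩ h'.W).card)) ⊆
          insert (ed v) Bad := by
        intro e he
        rw [Finset.mem_filter, Finset.mem_union, Finset.mem_insert (a := e) (s := B)] at he
        rw [Finset.mem_insert, hBad, Finset.mem_filter, Finset.mem_union]
        have h2 : 2 ≤ (e ∩ h.W).card := he.2
        rcases he.1 with h3 | h3 | h3
        · exact Or.inr ⟨Or.inl h3, h2⟩
        · exact Or.inl h3
        · exact Or.inr ⟨Or.inr h3, h2⟩
      have h1 := Finset.card_le_card hsub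
      have h2 := Finset.card_insert_le (ed v) Bad
      omega
  · -- part 3
    rintro u A B x y ⟨h, hc, hfl, hN0, hcount⟩ ⟨c', hx, hy, hcov⟩
    have small : ∀ e ∈ c'.edges, ¬ 2 ≤ (e ∩ h.W).card := by
      intro e he h2
      have hsub : e ∩ h.W ⊆ {c'.z} := by
        intro v hv
        rw [Finset.mem_inter] at hv
        have h3 := edges_sub c' he hv.1
        rw [Finset.mem_insert] at h3
        rcases h3 with h3 | h3
        · rw [Finset.mem_singleton]; exact h3
        · obtain ⟨g, hg, hvg⟩ := hcov v h3
          exact absurd hvg (Finset.disjoint_left.mp (hN0 g hg) hv.2)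
      have := Finset.card_le_card hsub
      rw [Finset.card_singleton] at this
      omega
    refine ⟨h, hc, fun s hs => Finset.mem_insert_of_mem (hfl s hs), hN0, ?_⟩
    refine le_trans (Finset.card_le_card ?_) hcount
    intro e he
    rw [Finset.mem_filter, Finset.mem_union, Finset.mem_insert, Finset.mem_insert] at he
    rw [Finset.mem_filter, Finset.mem_union]
    refine ⟨?_, he.2⟩
    rcases he.1 with (h1 | h1) | (h1 | h1)
    · exact absurd he.2 (h1 ▸ small x hx)
    · exact Or.inl h1
    · exact absurd he.2 (h1 ▸ small y hy)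
    · exact Or.inr h1
  · -- part 4
    rintro A B ⟨h, hc, hfl, _, _⟩ hB
    refine ⟨h, ?_⟩
    unfold HC.hedges
    rw [Finset.union_subset_iff]
    refine ⟨by rw [hc]; exact hB, ?_⟩
    intro e he
    rw [Finset.mem_image] at he
    obtain ⟨s, _, rfl⟩ := he
    exact hfl s s.2

end Pool.Agent.W196.DR
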